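import Pool.Agent.K3h72.Tr.F

/-!
# Affine relations between the points of `×p, ×q` invariant measures

For coprime `p, q ≥ 2`: an invariant probability measure singular to Lebesgue measure is carried by a
Borel set `X` no two points of which satisfy a relation `a x = b y + l` with nonzero integers `a, b`
and `l` in a given countable set without elements of finite order prime to `p q`.  Any translate of a
totally ergodic invariant measure is equal or singular to any other totally ergodic invariant
measure, and a totally ergodic invariant measure other than Lebesgue measure is carried by a Borel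
set whose points satisfy only the relations `a x = b y + l` which are forced by an equality of the
images of the measure, so that `l` has finite order prime to `p q`.
-/

set_option autoImplicit false

open MeasureTheory

namespace Pool.Agent.Results.MP_96e181_an.AffineRelations

/-- `μ` is invariant under `x ↦ p x` and `x ↦ q x`. -/
def Invariant (p q : ℕ) (μ : Measure UnitAddCircle) : Prop :=
  MeasurePreserving (fun x : UnitAddCircle => p • x) μ μ ∧
    MeasurePreserving (fun x : UnitAddCircle => q • x) μ μ

/-- `μ` is ergodic for the joint action of `x ↦ p ^ k x` and `x ↦ q ^ k x`, for every `k ≥ 1`. -/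
def TotallyErgodic (p q : ℕ) (μ : Measure UnitAddCircle) : Prop :=
  ∀ k : ℕ, 1 ≤ k → ∀ E : Set UnitAddCircle, MeasurableSet E →
    (fun x : UnitAddCircle => (p ^ k) • x) ⁻¹' E = E →
    (fun x : UnitAddCircle => (q ^ k) • x) ⁻¹' E = E → μ E = 0 ∨ μ E = 1

/-- Let `p, q ≥ 2` be coprime.
1. (No ergodicity.) Let `ν` be an invariant probability measure singular to Lebesgue measure and `Λ`
a countable subset of the circle which has no element of finite order coprime to `p q`. There is a
Borel set `X` with `ν X = 1` such that `a x ≠ b y + l` for all `x, y ∈ X`, all nonzero integers `a, b`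
and all `l ∈ Λ`.
2. If `μ`, `ν` are totally ergodic invariant probability measures then every translate of `μ` is
equal to `ν` or singular to `ν`.
3. Let `ν` be a totally ergodic invariant probability measure other than Lebesgue measure. The
translations which preserve `ν` form a finite set, and for every countable subset `Λ` of the circle
there is a Borel set `X` with `ν X = 1` such that every relation `a x = b y + l` with `x, y ∈ X`,
nonzero integers `a, b` and `l ∈ Λ` is forced by an equality of measures: the image of `ν` under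
`z ↦ a z` is the image of `ν` under `z ↦ b z + l`, and `l` has finite order coprime to `p q`. -/
theorem result (p q : ℕ) (hp : 2 ≤ p) (hq : 2 ≤ q) (hpq : Nat.Coprime p q) :
    (∀ ν : Measure UnitAddCircle, IsProbabilityMeasure ν → Invariant p q ν → ν ⟂ₘ volume →
      ∀ Λ : Set UnitAddCircle, Λ.Countable →
        (∀ l ∈ Λ, ¬ (IsOfFinAddOrder l ∧ (addOrderOf l).Coprime (p * q))) →
        ∃ X : Set UnitAddCircle, MeasurableSet X ∧ ν X = 1 ∧ ∀ x ∈ X, ∀ y ∈ X, ∀ a b : ℤ,
          a ≠ 0 → b ≠ 0 → ∀ l ∈ Λ, a • x ≠ b • y + l) ∧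
    (∀ μ ν : Measure UnitAddCircle, IsProbabilityMeasure μ → IsProbabilityMeasure ν →
      Invariant p q μ → Invariant p q ν → TotallyErgodic p q μ → TotallyErgodic p q ν →
      ∀ α : UnitAddCircle, μ.map (fun x => x + α) = ν ∨ μ.map (fun x => x + α) ⟂ₘ ν) ∧
    (∀ ν : Measure UnitAddCircle, IsProbabilityMeasure ν → Invariant p q ν →
      TotallyErgodic p q ν → ν ≠ volume →
      {α : UnitAddCircle | ν.map (fun x => x + α) = ν}.Finite ∧
      ∀ Λ : Set UnitAddCircle, Λ.Countable →
        ∃ X : Set UnitAddCircle, MeasurableSet X ∧ ν X = 1 ∧ ∀ x ∈ X, ∀ y ∈ X, ∀ a b : ℤ,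
          a ≠ 0 → b ≠ 0 → ∀ l ∈ Λ, a • x = b • y + l →
            ν.map (fun z => a • z) = ν.map (fun z => b • z + l) ∧
              IsOfFinAddOrder l ∧ (addOrderOf l).Coprime (p * q)) := by
  refine ⟨fun ν hν hi hs Λ hΛ hΛ' => ?_, fun μ ν hμ hν hiμ hiν hTμ hTν α => ?_,
    fun ν hν hi hT hne => ⟨Pool.Agent.K3h72.Tr.finite_symm hne, fun Λ hΛ => ?_⟩⟩
  · exact Pool.Agent.K3h72.Tr.affine_general hp hq hpq hi.1 hi.2 hs hΛ hΛ'
  · exact Pool.Agent.K3h72.Tr.dichotomy hp hq hpq hiμ.1 hiμ.2 hiν.1 hiν.2 hTμ hTν α
  · obtain ⟨X, hX, hX1, h⟩ := Pool.Agent.K3h72.Tr.affine hp hq hpq hi.1 hi.2 hT hne hΛ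
    refine ⟨X, hX, hX1, fun x hx y hy a b ha hb l hl hxy => ?_⟩
    obtain ⟨h1, h2, h3⟩ := h x hx y hy a b ha hb l hl hxy
    refine ⟨?_, h2, h3⟩
    rw [h1, Measure.map_map (Pool.Agent.K3h72.Tr.measurable_tr l)
      (Pool.Agent.K3h72.Tr.measurable_zsmul' b)]
    rfl

end Pool.Agent.Results.MP_96e181_an.AffineRelations
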