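import Pool.Agent.K3h28.FZ.Carrier

/-!
# Furstenberg's conjecture and subfields of the reals of dimension zero

Countably many measures on the circle, each invariant under two coprime multiplications, have one
common exceptional set `F` modulo one, where `F` is a `σ`-compact subfield of the reals whose finite
powers have dimension zero, relatively algebraically closed and closed under any prescribed countable
family of locally Hoelder functions: off `F` modulo one all of them are multiples of Lebesgue measure.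
Consequently Furstenberg's conjecture is a statement about proper Borel subfields of the reals.
-/

set_option autoImplicit false

open MeasureTheory Set Filter Topology

namespace Pool.Agent.Results.MP_96e181_an.FieldsOfDimensionZero

open Pool.Agent.K3h28.FZ

/-- reduction modulo one of a subfield of the reals -/
def modOne (F : Subfield ℝ) : Set UnitAddCircle := (fun x : ℝ => (x : UnitAddCircle)) '' (F : Set ℝ)

/-- probability measures invariant under `x ↦ p x` and `x ↦ q x` -/
structure Inv (p q : ℕ) (μ : Measure UnitAddCircle) : Prop where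
  prob : IsProbabilityMeasure μ
  left : MeasurePreserving (fun x : UnitAddCircle => p • x) μ μ
  right : MeasurePreserving (fun x : UnitAddCircle => q • x) μ μ

lemma int_mem (F : Subfield ℝ) {x y : ℝ} (h : (x : UnitAddCircle) = (y : UnitAddCircle))
    (hy : y ∈ F) : x ∈ F := by
  rw [← sub_eq_zero, ← AddCircle.coe_sub, AddCircle.coe_eq_zero_iff] at h
  obtain ⟨n, hn⟩ := h
  have e : x = y + (n : ℝ) := by
    rw [zsmul_eq_mul, mul_one] at hn
    linarith
  rw [e]
  exact F.add_mem hy (intCast_mem F n)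

lemma preimage_modOne (F : Subfield ℝ) :
    (fun x : ℝ => (x : UnitAddCircle)) ⁻¹' modOne F = (F : Set ℝ) := by
  ext x
  constructor
  · rintro ⟨y, hy, hyx⟩
    exact int_mem F hyx.symm hy
  · intro hx
    exact ⟨x, hx, rfl⟩

lemma measurable_modOne (F : Subfield ℝ) (hF : MeasurableSet (F : Set ℝ)) :
    MeasurableSet (modOne F) := by
  have h1 : Measurable fun y : UnitAddCircle => ((AddCircle.measurableEquivIco 1 0 y : Ico (0 : ℝ) (0 + 1)) : ℝ) :=
    measurable_subtype_coe.comp (AddCircle.measurableEquivIco 1 0).measurable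
  have e : modOne F = (fun y : UnitAddCircle =>
      ((AddCircle.measurableEquivIco 1 0 y : Ico (0 : ℝ) (0 + 1)) : ℝ)) ⁻¹' (F : Set ℝ) := by
    ext y
    have hy : ((((AddCircle.measurableEquivIco 1 0 y : Ico (0 : ℝ) (0 + 1)) : ℝ)) : UnitAddCircle) = y :=
      AddCircle.coe_equivIco
    constructor
    · rintro ⟨x, hx, rfl⟩
      exact int_mem F hy hx
    · intro h
      exact ⟨_, h, hy⟩
  rw [e]
  exact h1 hF

lemma null_real (F : Subfield ℝ) (hF : MeasurableSet (F : Set ℝ)) (hne : F ≠ ⊤) :
    volume (F : Set ℝ) = 0 := by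
  by_contra hpos
  apply hne
  have h1 := Measure.sub_mem_nhds_zero_of_addHaar_pos (volume : Measure ℝ) (F : Set ℝ) hF
    (pos_iff_ne_zero.2 hpos)
  have h2 : (F : Set ℝ) ∈ 𝓝 (0 : ℝ) := by
    refine mem_of_superset h1 ?_
    rintro _ ⟨a, ha, b, hb, rfl⟩
    exact F.sub_mem ha hb
  rw [eq_top_iff]
  intro x _
  have h3 : Tendsto (fun n : ℕ => x / ((n : ℝ) + 1)) atTop (𝓝 0) :=
    tendsto_const_nhds.div_atTop (tendsto_atTop_add_const_right _ _ tendsto_natCast_atTop_atTop)
  obtain ⟨n, hn⟩ := (h3.eventually h2).exists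
  have h4 : ((n : ℝ) + 1) ∈ F := F.add_mem (natCast_mem F n) F.one_mem
  have h5 : x = x / ((n : ℝ) + 1) * ((n : ℝ) + 1) := by field_simp
  rw [h5]
  exact F.mul_mem hn h4

lemma null_modOne (F : Subfield ℝ) (hF : MeasurableSet (F : Set ℝ)) (hne : F ≠ ⊤) :
    (volume : Measure UnitAddCircle) (modOne F) = 0 := by
  have h1 := (AddCircle.measurePreserving_mk 1 0).measure_preimage
    (measurable_modOne F hF).nullMeasurableSet
  rw [← h1, preimage_modOne]
  exact le_antisymm ((Measure.restrict_apply_le _ _).trans (null_real F hF hne).le) zero_le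

lemma small_measurable {Φ : Fam} {F : Subfield ℝ} (h : Small Φ F) : MeasurableSet (F : Set ℝ) := by
  obtain ⟨K, hK, hF⟩ := h.sigma
  rw [← hF]
  exact MeasurableSet.iUnion fun n => (hK n).measurableSet

lemma small_ne_top {Φ : Fam} {F : Subfield ℝ} (h : Small Φ F) : F ≠ ⊤ := by
  rintro rfl
  have h1 := h.dim 1
  have e : {v : Fin 1 → ℝ | ∀ i, v i ∈ (⊤ : Subfield ℝ)} = univ := by
    ext v; simp
  rw [e, Real.dimH_univ_pi_fin] at h1
  simp at h1

theorem part_one (Φ : Fam) (p q : ℕ → ℕ) (μ : ℕ → Measure UnitAddCircle)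
    (h : ∀ i, 2 ≤ p i ∧ 2 ≤ q i ∧ (p i).Coprime (q i) ∧ Inv (p i) (q i) (μ i)) :
    ∃ F : Subfield ℝ, Small Φ F ∧
      ∀ i, (μ i).restrict (modOne F)ᶜ = μ i (modOne F)ᶜ • (volume : Measure UnitAddCircle) := by
  have hprob : ∀ i, IsProbabilityMeasure (μ i) := fun i => (h i).2.2.2.prob
  have h1 : ∀ i, ∃ D : Set UnitAddCircle, MeasurableSet D ∧
      (μ i).restrict D = μ i D • (volume : Measure UnitAddCircle) ∧
      ∀ ε η : ℝ, 0 < ε → 0 < η → ∃ R₀ : ℝ, ∀ R, R₀ ≤ R → ∃ S : Finset UnitAddCircle,
        (S.card : ℝ) ≤ Real.exp (η * R) ∧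
        μ i (Dᶜ ∩ {y | ∀ s ∈ S, Real.exp (-R) < ‖y - s‖}) ≤ ENNReal.ofReal ε := fun i => by
    have := hprob i
    exact singular_cover (h i).1 (h i).2.1 (h i).2.2.1 (μ i) (h i).2.2.2.left (h i).2.2.2.right
  choose D hDm hD hcov using h1
  obtain ⟨R, hR, S, hS⟩ := common_scales μ D hcov
  obtain ⟨F, hF, hsub⟩ := subfield_exists hR Φ (fun n => piece R S n.unpair.1 n.unpair.2)
    (fun n => piece_compact R S _ _) (fun n => piece_thin hR (fun m i hi => (hS m i hi).1) _ _)
  refine ⟨F, hF, fun i => ?_⟩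
  have := hprob i
  have hFm := small_measurable hF
  have hm := measurable_modOne F hFm
  have hnull := null_modOne F hFm (small_ne_top hF)
  have h2 : μ i ((D i)ᶜ \ modOne F) = 0 := by
    refine piece_mass (fun m i hi => (hS m i hi).2) i fun l x hx => ?_
    have h3 := hsub (Nat.pair l i)
    simp only [Nat.unpair_pair] at h3
    exact ⟨x, h3 hx, rfl⟩
  have h3 : ((modOne F)ᶜ : Set UnitAddCircle) =ᵐ[μ i] ((modOne F)ᶜ ∩ D i : Set UnitAddCircle) := by
    rw [eventuallyEq_set]
    have h4 : ∀ᵐ x ∂(μ i), x ∉ ((D i)ᶜ \ modOne F : Set UnitAddCircle) :=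
      measure_eq_zero_iff_ae_notMem.1 h2
    filter_upwards [h4] with x hx
    constructor
    · intro hxF
      refine ⟨hxF, ?_⟩
      by_contra hxD
      exact hx ⟨hxD, hxF⟩
    · exact fun hx => hx.1
  have h5 : (μ i).restrict (modOne F)ᶜ = μ i (D i) • (volume : Measure UnitAddCircle) := by
    rw [Measure.restrict_congr_set h3, ← Measure.restrict_restrict hm.compl, hD i,
      Measure.restrict_smul]
    congr 1
    refine Measure.restrict_eq_self_of_ae_mem ?_
    rw [ae_iff]
    simpa using hnull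
  have h6 : μ i (modOne F)ᶜ = μ i (D i) := by
    have := congrArg (fun ν : Measure UnitAddCircle => ν univ) h5
    simpa using this
  rw [h6]
  exact h5

/-- **One subfield of dimension zero for countably many invariant measures, and Furstenberg's
conjecture as a statement about proper subfields of the reals.** -/
theorem result :
    (∀ (Φ : Fam) (p q : ℕ → ℕ) (μ : ℕ → Measure UnitAddCircle),
      (∀ i, 2 ≤ p i ∧ 2 ≤ q i ∧ (p i).Coprime (q i) ∧ Inv (p i) (q i) (μ i)) →
      ∃ F : Subfield ℝ, Small Φ F ∧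
        ∀ i, (μ i).restrict (modOne F)ᶜ = μ i (modOne F)ᶜ • (volume : Measure UnitAddCircle)) ∧
    (∀ (Φ : Fam) (p q : ℕ), 2 ≤ p → 2 ≤ q → p.Coprime q →
      [∀ μ : Measure UnitAddCircle, Inv p q μ → (∀ x, μ {x} = 0) → μ = volume,
        ∀ F : Subfield ℝ, MeasurableSet (F : Set ℝ) → F ≠ ⊤ →
          ∀ μ : Measure UnitAddCircle, Inv p q μ → (∀ x, μ {x} = 0) → μ (modOne F) = 0,
        ∀ F : Subfield ℝ, Small Φ F →
          ∀ μ : Measure UnitAddCircle, Inv p q μ → (∀ x, μ {x} = 0) → μ (modOne F) = 0].TFAE) := by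
  refine ⟨part_one, fun Φ p q hp hq hpq => ?_⟩
  tfae_have 1 → 2 := by
    intro h F hF hne μ h1 h2
    rw [h μ h1 h2]
    exact null_modOne F hF hne
  tfae_have 2 → 3 := fun h F hF μ h1 h2 => h F (small_measurable hF) (small_ne_top hF) μ h1 h2
  tfae_have 3 → 1 := by
    intro h μ h1 h2
    obtain ⟨F, hF, hi⟩ := part_one Φ (fun _ => p) (fun _ => q) (fun _ => μ)
      fun _ => ⟨hp, hq, hpq, h1⟩
    have h3 := h F hF μ h1 h2
    have := h1.prob
    have hm := measurable_modOne F (small_measurable hF)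
    have h4 := hi 0
    have h5 : μ.restrict (modOne F)ᶜ = μ := by
      refine Measure.restrict_eq_self_of_ae_mem ?_
      rw [ae_iff]
      simpa using h3
    rw [h5, (prob_compl_eq_one_iff hm).2 h3, one_smul] at h4
    exact h4
  tfae_finish

end Pool.Agent.Results.MP_96e181_an.FieldsOfDimensionZero
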