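import Pool.Agent.K3h9.GM.Main

/-!
Generic measures invariant under `x ↦ p x` and their images under the other multiplications.

`Inv p` is the set of the Borel probability measures on the circle `ℝ / ℤ` invariant under
`x ↦ p x`, `img m μ` the image of `μ` under `x ↦ m x`, `leb` Lebesgue measure and
`mix t _ _ μ ν = t μ + (1 - t) ν`. The topology is the weak one.
-/

set_option autoImplicit false

open MeasureTheory Filter Topology Set
open Pool.Agent.K3h9.GM

namespace Pool.Agent.Results.MP_96e181_an.GenericMeasures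

/-- For every `p ≥ 2` a generic (dense `G_δ`) measure `μ` among the measures invariant under
`x ↦ p x` has the following properties. For every residue class `c mod D` with `c` prime to `D`, the
weak limit points of the images of `μ` under `x ↦ l x`, as `l → ∞` through the primes `l ≡ c mod D`,
are exactly ALL measures invariant under `x ↦ p x`. For every `q ≥ 2` with `log p / log q` irrational,
every measure on the segment from `μ` to Lebesgue measure is a weak limit point of the images of `μ`
under `x ↦ q^n x`, `n → ∞`; and for every neighbourhood `W` of Lebesgue measure and every `ε > 0`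
there are infinitely many `X` such that all but at most `ε X` of the first `X` images lie in `W`. -/
theorem result (p : ℕ) (hp : 2 ≤ p) :
    ∃ G : Set (Inv p), IsGδ G ∧ Dense G ∧ ∀ μ ∈ G,
      (∀ D c : ℕ, 0 < D → Nat.Coprime c D → ∀ ν : ProbabilityMeasure UnitAddCircle,
        MapClusterPt ν (atTop ⊓ 𝓟 {l : ℕ | l.Prime ∧ l ≡ c [MOD D]}) (fun l => img l μ) ↔
          ν ∈ Inv p) ∧
      ∀ q : ℕ, 2 ≤ q → Irrational (Real.log p / Real.log q) →
        (∀ (t : ℝ) (ht0 : 0 ≤ t) (ht1 : t ≤ 1),
          MapClusterPt (mix t ht0 ht1 μ leb) atTop fun n : ℕ => img (q ^ n) μ) ∧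
        ∀ W ∈ 𝓝 leb, ∀ ε : ℝ, 0 < ε → ∀ N : ℕ,
          ∃ X, N ≤ X ∧ ({n : ℕ | n < X ∧ img (q ^ n) μ ∉ W}.ncard : ℝ) ≤ ε * X :=
  ⟨Gen p, isGdelta_Gen p, dense_Gen hp, fun _ hμ =>
    ⟨fun _ _ hD hc ν => Gen_b hμ hD hc ν, fun _ hq hirr =>
      ⟨fun _ ht0 ht1 => Gen_a hq hirr hμ ht0 ht1, fun _ hW _ hε N => Gen_c hq hirr hμ hW hε N⟩⟩⟩

end Pool.Agent.Results.MP_96e181_an.GenericMeasures
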