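import Pool.Agent.K3h90.FP.Final
import Pool.Agent.K3h90.FP.SmoD

/-! # The common fixed points of `x ↦ p x` and `x ↦ q x`, up to the optimal size of `p + q`

Let `1 < p < q` and `g = gcd (p - 1, q - 1)`. If `p + q < g ^ 2 + 2`, then `p` and `q` are
multiplicatively independent, the set of the first Fourier coefficients of the jointly invariant
probability measures is exactly the convex hull of the `g`-th roots of unity, which then contains
all the Fourier coefficients of these measures, a measure whose first coefficient is not an interior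
point of this polygon is carried by the common fixed points, and for every point `θ` one common
fixed point minimises the mean of every convex cost of the distance to `θ`.

If `(1 + ε) (p + q) ≤ g ^ 2` and `q` is large, then for every translate of a given function of class
`C ^ 2` with one nondegenerate maximum some common fixed point is maximising, and only measures on
common fixed points are.

The condition on `p + q` is best possible up to lower order terms: for every `g ≥ 1` the first
statement about coefficients fails for some multiplicatively independent `p, q` with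
`gcd (p - 1, q - 1) = g` and `p + q = g ^ 2 + 2 g + 2`. -/

namespace Pool.Agent.Results.MP_96e181_an.SharpFixedPointPolygon

open MeasureTheory

/-- Part one: the jointly invariant measures if `p + q < gcd (p - 1, q - 1) ^ 2 + 2`. Part two:
smooth functions, if `(1 + ε) (p + q) ≤ gcd (p - 1, q - 1) ^ 2` and `q` is large. Part three: the
polygon is not the set of the coefficients for some `p + q = g ^ 2 + 2 g + 2`. -/
theorem result :
    (∀ p q : ℕ, 1 < p → p < q → p + q < ((p - 1).gcd (q - 1)) ^ 2 + 2 →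
      Irrational (Real.log p / Real.log q) ∧
      {c : ℂ | ∃ μ : Measure UnitAddCircle, IsProbabilityMeasure μ ∧
        MeasurePreserving (fun x => p • x) μ μ ∧ MeasurePreserving (fun x => q • x) μ μ ∧
        c = ∫ x, fourier 1 x ∂μ} = convexHull ℝ {z : ℂ | z ^ (p - 1).gcd (q - 1) = 1} ∧
      (∀ μ : Measure UnitAddCircle, IsProbabilityMeasure μ →
        MeasurePreserving (fun x => p • x) μ μ → MeasurePreserving (fun x => q • x) μ μ →
        (∀ n : ℤ,
          ∫ x, (fourier n x : ℂ) ∂μ ∈ convexHull ℝ {z : ℂ | z ^ (p - 1).gcd (q - 1) = 1}) ∧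
        (∫ x, (fourier 1 x : ℂ) ∂μ ∉
            interior (convexHull ℝ {z : ℂ | z ^ (p - 1).gcd (q - 1) = 1}) →
          ∀ᵐ x ∂μ, p • x = x ∧ q • x = x)) ∧
      (∀ θ : UnitAddCircle, ∃ z : UnitAddCircle, p • z = z ∧ q • z = z ∧
        ∀ ψ : ℝ → ℝ, ConvexOn ℝ (Set.Icc 0 (1 / 2)) ψ → MonotoneOn ψ (Set.Icc 0 (1 / 2)) →
          ContinuousOn ψ (Set.Icc 0 (1 / 2)) →
          ∀ μ : Measure UnitAddCircle, IsProbabilityMeasure μ →
            MeasurePreserving (fun x => p • x) μ μ → MeasurePreserving (fun x => q • x) μ μ →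
            ψ ‖z - θ‖ ≤ ∫ x, ψ ‖x - θ‖ ∂μ)) ∧
    (∀ (F : UnitAddCircle → ℝ) (x₀ : UnitAddCircle),
      ContDiff ℝ 2 (fun x : ℝ => F (x : UnitAddCircle)) →
      (∀ y, y ≠ x₀ → F y < F x₀) →
      deriv (deriv fun x : ℝ => F (x₀ + (x : UnitAddCircle))) 0 < 0 →
      ∀ ε : ℝ, 0 < ε → ∃ Q : ℕ, ∀ p q : ℕ, 1 < p → p < q → Q ≤ q →
        (1 + ε) * ((p : ℝ) + q) ≤ (((p - 1).gcd (q - 1) : ℕ) : ℝ) ^ 2 →
        ∀ t : UnitAddCircle, ∃ z : UnitAddCircle, p • z = z ∧ q • z = z ∧
          ∀ μ : Measure UnitAddCircle, IsProbabilityMeasure μ →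
            MeasurePreserving (fun x => p • x) μ μ → MeasurePreserving (fun x => q • x) μ μ →
            ∫ x, F (x - t) ∂μ ≤ F (z - t) ∧
              (∫ x, F (x - t) ∂μ = F (z - t) → ∀ᵐ x ∂μ, p • x = x ∧ q • x = x)) ∧
    (∀ g : ℕ, 0 < g → ∃ p q : ℕ, 1 < p ∧ p < q ∧ (p - 1).gcd (q - 1) = g ∧
      p + q = g ^ 2 + 2 * g + 2 ∧ Irrational (Real.log p / Real.log q) ∧
      ∃ μ : Measure UnitAddCircle, IsProbabilityMeasure μ ∧
        MeasurePreserving (fun x => p • x) μ μ ∧ MeasurePreserving (fun x => q • x) μ μ ∧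
        ∫ x, (fourier 1 x : ℂ) ∂μ ∉ convexHull ℝ {z : ℂ | z ^ g = 1}) :=
  ⟨fun _ _ hp hpq h => Pool.Agent.K3h90.FP.main hp hpq h,
    fun F x₀ hF hmax hnd _ hε => Pool.Agent.K3h90.FP.smooth F x₀ hF hmax hnd hε,
    fun _ hg => Pool.Agent.K3h90.FP.sharp_family hg⟩

end Pool.Agent.Results.MP_96e181_an.SharpFixedPointPolygon
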